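import Mathlib

namespace Pool.Agent.Results.MP_57f2ab_co.All

open Set Pointwise

universe u

/-- the h-fold product set A^h in a semigroup, for h >= 1 -/
def pw {S : Type} [Mul S] (A : Set S) : ℕ → Set S
  | 0 => ∅
  | 1 => A
  | h + 2 => pw A (h + 1) * A

/-- the product intersection set of a family -/
def H {S : Type} [Mul S] {Q : Type u} (A : Q → Set S) : Set ℕ :=
  {h | 1 ≤ h ∧ pw (⋂ q, A q) h = ⋂ q, pw (A q) h}

abbrev T := Option (ℕ × ℕ × ℕ)

open Classical in
noncomputable def mul (X : Set ℕ) : T → T → T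
  | some (h, n, i), some (h', n', j) =>
    if h = h' ∧ n = n' ∧ 0 < i ∧ 0 < j then
      if i + j < h then some (h, n, i + j) else if i + j = h ∧ h ∉ X then some (h, 0, h) else none
    else none
  | _, _ => none

theorem mul_none (X : Set ℕ) (a : T) : mul X a none = none := by
  rcases a with _ | ⟨h, n, i⟩ <;> rfl

theorem none_mul (X : Set ℕ) (a : T) : mul X none a = none := rfl

theorem assoc (X : Set ℕ) (a b c : T) : mul X (mul X a b) c = mul X a (mul X b c) := by
  rcases a with _ | ⟨h, n, i⟩
  · rfl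
  rcases b with _ | ⟨h', n', j⟩
  · rfl
  rcases c with _ | ⟨h'', n'', k⟩
  · simp only [mul_none]
  simp only [mul]
  split_ifs <;> simp only [mul_none, none_mul] <;> split_ifs <;>
    first | rfl | omega | (rw [add_assoc]) | grind

def gen (n : ℕ) : Set T := {w | w = none ∨ ∃ h m, 2 ≤ h ∧ n ≤ m ∧ w = some (h, m, 1)}

theorem result (Q : Type u) [Infinite Q] (X : Set ℕ) (h0 : 0 ∉ X) (h1 : 1 ∈ X) :
    ∃ (S : Type) (_ : Semigroup S) (A : Q → Set S), (range A).Infinite ∧ H A = X := by
  let inst : Semigroup T := { mul := mul X, mul_assoc := assoc X }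
  have hm : ∀ a b : T, a * b = mul X a b := fun _ _ => rfl
  obtain ⟨π, hπ⟩ : ∃ π : Q → ℕ, Function.Surjective π :=
    ⟨_, Function.invFun_surjective (Infinite.natEmbedding Q).injective⟩
  have hI : ∀ f : ℕ → Set T, (⋂ q, f (π q)) = ⋂ n, f n := fun f => hπ.iInter_comp f
  have a1 : (⋂ n, gen n) = {none} := by
    ext w
    simp only [mem_iInter, mem_singleton_iff]
    refine ⟨fun h => ?_, fun h n => Or.inl h⟩
    rcases h 0 with h' | ⟨a, m, -, -, rfl⟩
    · exact h'
    · rcases h (m + 1) with h' | ⟨a', m', -, h2, h3⟩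
      · exact h'
      · simp only [Option.some.injEq, Prod.mk.injEq] at h3; omega
  have a2 : ∀ k, pw ({none} : Set T) (k + 1) = {none} := by
    intro k
    induction k with
    | zero => rfl
    | succ k ih => rw [pw, ih, singleton_mul_singleton]; rfl
  have a3 : ∀ n k, none ∈ pw (gen n) (k + 1) := by
    intro n k
    induction k with
    | zero => exact Or.inl rfl
    | succ k ih => exact ⟨none, ih, none, Or.inl rfl, rfl⟩
  have a4 : ∀ n k w, w ∈ pw (gen n) (k + 1) → w = none ∨ ∃ h m, n ≤ m ∧
      ((k + 1 < h ∧ w = some (h, m, k + 1)) ∨ (k + 1 = h ∧ h ∉ X ∧ w = some (h, 0, h))) := by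
    intro n k
    induction k with
    | zero =>
      rintro w (h | ⟨h, m, b1, b2, b3⟩)
      · exact Or.inl h
      · exact Or.inr ⟨h, m, b2, Or.inl ⟨b1, b3⟩⟩
    | succ k ih =>
      rintro _ ⟨u, hu, v, hv, rfl⟩
      simp only [hm]
      rcases hv with rfl | ⟨h', m', -, -, rfl⟩
      · exact Or.inl (mul_none X u)
      rcases ih u hu with rfl | ⟨h, m, b1, ⟨b2, rfl⟩ | ⟨b2, b3, rfl⟩⟩
      · exact Or.inl rfl
      · simp only [mul]
        split_ifs with c1 c2 c3
        · exact Or.inr ⟨h, m, b1, Or.inl ⟨c2, rfl⟩⟩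
        · exact Or.inr ⟨h, m, b1, Or.inr ⟨c3.1, c3.2, rfl⟩⟩
        · exact Or.inl rfl
        · exact Or.inl rfl
      · simp only [mul]
        split_ifs with c1 c2 c3
        · omega
        · omega
        · exact Or.inl rfl
        · exact Or.inl rfl
  have a5 : ∀ n h k, k + 1 < h → some (h, n, k + 1) ∈ pw (gen n) (k + 1) := by
    intro n h k
    induction k with
    | zero => exact fun hk => Or.inr ⟨h, n, hk, le_rfl, rfl⟩
    | succ k ih =>
      intro hk
      refine ⟨_, ih (by omega), some (h, n, 1), Or.inr ⟨h, n, by omega, le_rfl, rfl⟩, ?_⟩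
      simp [hm, mul, hk]
  refine ⟨T, inst, fun q => gen (π q), ?_, ?_⟩
  · have : range (fun q => gen (π q)) = range gen := hπ.range_comp gen
    rw [this]
    refine infinite_range_of_injective (StrictAnti.injective (strictAnti_nat_of_succ_lt fun n => ?_))
    refine ⟨?_, fun h => ?_⟩
    · rintro w (h | ⟨h, m, b1, b2, b3⟩)
      · exact Or.inl h
      · exact Or.inr ⟨h, m, b1, by omega, b3⟩
    · rcases h (a := some (2, n, 1)) (Or.inr ⟨2, n, le_rfl, le_rfl, rfl⟩) with h' | ⟨a, m, -, h2, h3⟩
      · cases h'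
      · simp only [Option.some.injEq, Prod.mk.injEq] at h3; omega
  · ext h
    cases h with
    | zero => simp [H, h0]
    | succ k =>
      simp only [H, mem_setOf_eq, le_add_iff_nonneg_left, zero_le, true_and]
      rw [hI gen, hI (fun n => pw (gen n) (k + 1)), a1, a2]
      constructor
      · intro e
        by_contra hX
        obtain ⟨k, rfl⟩ : ∃ j, k = j + 1 := ⟨k - 1, by
          rcases Nat.eq_zero_or_pos k with rfl | h
          · exact (hX h1).elim
          · omega⟩
        have : some (k + 2, 0, k + 2) ∈ ⋂ n, pw (gen n) (k + 1 + 1) := by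
          refine mem_iInter.2 fun n => ⟨_, a5 n (k + 2) k (by omega), some (k + 2, n, 1),
            Or.inr ⟨k + 2, n, by omega, le_rfl, rfl⟩, ?_⟩
          simp [hm, mul, hX]
        rw [← e] at this
        cases this
      · intro hX
        ext w
        simp only [mem_iInter, mem_singleton_iff]
        refine ⟨fun e n => e ▸ a3 n k, fun e => ?_⟩
        rcases a4 0 k w (e 0) with b | ⟨h, m, -, ⟨b2, rfl⟩ | ⟨rfl, b3, -⟩⟩
        · exact b
        · rcases a4 (m + 1) k _ (e _) with b | ⟨h', m', c1, ⟨-, c2⟩ | ⟨rfl, c3, -⟩⟩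
          · exact b
          · simp only [Option.some.injEq, Prod.mk.injEq] at c2; omega
          · exact (c3 hX).elim
        · exact (b3 hX).elim

end Pool.Agent.Results.MP_57f2ab_co.All
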